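import Pool.Agent.Helper36.PS.Residue
import Pool.Agent.Helper36.S5.Core
import Pool.Agent.Helper55.RD.RatLB
import Pool.Agent.Helper93.RatHev

/-!
# Plan S: modules M6b (descent over the residue field) and M6c (rigidity)
-/

set_option autoImplicit false

open Finset Polynomial

namespace Pool.Agent.Helper36.PS

open Pool.Agent.Helper33 Pool.Agent.Helper33.PS Pool.Agent.Helper36.S5 Pool.Agent.Helper93.RatODE

lemma hev_eq_hsub {k : Type*} [Field k] (P A B : k[X]) (n : ℕ) :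
    (hev P n A B : k[X]) = hsub A B n P := by
  rw [hev, hsub]
  refine sum_congr rfl fun i _ => ?_
  rw [algebraMap_eq, mul_assoc]

lemma rat_of_isRat {k : Type*} [Field k] {A B : k[X]} {d : ℕ} (h : IsRat A B d) : Rat A B d :=
  ⟨h.cop, h.dA, h.dB, h.top⟩

/-- M6b DESCENT over the residue field -/
theorem descent (d m : ℕ) (hd : 2 ≤ d) : ∃ C₀ n₀ : ℕ, ∀ {k : Type} [Field k] [IsAlgClosed k]
    [CharZero k] (A B E : k[X]), IsRat A B d → E.natDegree ≤ 2 * d →
    ∀ n n₁ : ℕ, n₀ ≤ n₁ → n₁ ≤ n → ∀ x u : ℕ → k, Orb A B x n →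
    (∀ i ≤ n, ∀ j ≤ n, x i = x j → i = j) →
    (∀ j < n, u (j + 1) = ((derivative A * B - A * derivative B).eval (x j) * u j + E.eval (x j)) /
      (B.eval (x j)) ^ 2) →
    ∀ p : Polynomial (Polynomial k), p ≠ 0 → p.natDegree < m → (∀ i, (p.coeff i).natDegree < m) →
      (∀ j ≤ n₁, (p.eval (C (u j))).eval (x j) = 0) →
    ∃ b : k[X], b.natDegree ≤ 2 ∧ (∀ j, C₀ ≤ j → j ≤ n → u j = b.eval (x j)) ∧
      hev b 2 A B - (derivative A * B - A * derivative B) * b = E := by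
  refine ⟨TT d m m, TT d m m, ?_⟩
  intro k _ _ _ A B E hAB hE n n₁ hn₁ hn₁n x u hx hinj hu p hp0 hpm hpX hv
  obtain ⟨b, h1, h2, h3⟩ := S5.descent (rat_of_isRat hAB) hd E hE x u n
    (fun i j hi hj => hinj i hi j hj)
    (fun j hj => by rw [hx.step j hj, div_mul_cancel₀ _ (hx.ne j hj)]) 0
    (fun j _ hj => by
      rw [hu j hj, div_mul_cancel₀ _ (pow_ne_zero 2 (hx.ne j hj))]; rfl)
    m m n₁ p hp0 hpm.le (fun i => (hpX i).le) (fun j _ hj => hv j hj) hn₁n (by omega)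
  refine ⟨b, h1, fun j hj hj' => h3 j (by omega) hj', ?_⟩
  rw [hev_eq_hsub, h2, wr]
  ring

section Good

variable {k E : Type*} [Field k] [Field E] [Algebra k E]

lemma rat_of_resultant {A B : k[X]} {d : ℕ} (hd : 1 ≤ d) (hA : A.natDegree ≤ d)
    (hB : B.natDegree ≤ d) (hr : resultant A B d d ≠ 0) : Rat A B d := by
  refine ⟨?_, hA, hB, ?_⟩
  · obtain ⟨p, q, _, _, h⟩ := exists_mul_add_mul_eq_C_resultant A B hA hB (Or.inl (by omega))
    refine ⟨C (resultant A B d d)⁻¹ * p, C (resultant A B d d)⁻¹ * q, ?_⟩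
    have h1 : C (resultant A B d d)⁻¹ * p * A + C (resultant A B d d)⁻¹ * q * B =
        C (resultant A B d d)⁻¹ * (A * p + B * q) := by ring
    rw [h1, h, ← C_mul, inv_mul_cancel₀ hr, C_1]
  · by_contra hcon
    push Not at hcon
    apply hr
    have key : ∀ P : k[X], P.natDegree ≤ d → P.coeff d = 0 → P.natDegree < d := by
      intro P hP hPd
      rcases hP.lt_or_eq with h | h
      · exact h
      · exfalso
        have h1 : P.leadingCoeff = 0 := by rw [leadingCoeff, h]; exact hPd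
        rw [leadingCoeff_eq_zero.mp h1] at h
        simp at h
        omega
    exact resultant_eq_zero_of_lt_lt _ _ _ _ (key A hA hcon.1) (key B hB hcon.2)

/-- integral model with good reduction -/
lemma exists_model {w : DV E} (hw : ResK k w) {A B : E[X]} {d : ℕ} (hd : 1 ≤ d)
    (hAB : IsRat A B d) (hg : IsGood w d A B) :
    ∃ (c : E) (Ao Bo : (Oring w)[X]), c ≠ 0 ∧ Ao.map (Oring w).subtype = C c * A ∧
      Bo.map (Oring w).subtype = C c * B ∧ Ao.natDegree ≤ d ∧ Bo.natDegree ≤ d ∧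
      Rat (Ao.map (resMap hw)) (Bo.map (resMap hw)) d := by
  obtain ⟨c, hc, hA, hB, hR⟩ := hg
  have hinj : Function.Injective (Oring w).subtype := Subtype.val_injective
  have hint : ∀ P : E[X], (∀ i, w.ge (w.o c) (P.coeff i)) → ∀ i, w.ge 0 ((C c⁻¹ * P).coeff i) := by
    intro P hP i
    rw [coeff_C_mul]
    have h2 := DV.ge_mul (DV.ge_inv hc le_rfl) (hP i)
    rwa [neg_add_cancel] at h2
  obtain ⟨Ao, hAo⟩ := exists_lift (C c⁻¹ * A) (hint A hA)
  obtain ⟨Bo, hBo⟩ := exists_lift (C c⁻¹ * B) (hint B hB)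
  have hAd : Ao.natDegree ≤ d := by
    rw [← natDegree_map_eq_of_injective hinj, hAo]
    exact (natDegree_C_mul_le _ _).trans hAB.dA
  have hBd : Bo.natDegree ≤ d := by
    rw [← natDegree_map_eq_of_injective hinj, hBo]
    exact (natDegree_C_mul_le _ _).trans hAB.dB
  refine ⟨c⁻¹, Ao, Bo, inv_ne_zero hc, hAo, hBo, hAd, hBd, ?_⟩
  apply rat_of_resultant hd (natDegree_map_le.trans hAd) (natDegree_map_le.trans hBd)
  rw [resultant_map_map]
  have hmax : A.natDegree = d ∨ B.natDegree = d := by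
    rcases hAB.top with h | h
    · exact Or.inl (le_antisymm hAB.dA (le_natDegree_of_ne_zero h))
    · exact Or.inr (le_antisymm hAB.dB (le_natDegree_of_ne_zero h))
  have hR0 : resultant A B d d ≠ 0 :=
    Pool.Agent.Helper55.RD.resultant_ne_zero_of_isCoprime hAB.cop hAB.dA hAB.dB hmax hd
  have e1 : (resultant Ao Bo d d).1 = (c⁻¹) ^ d * ((c⁻¹) ^ d * resultant A B d d) := by
    have h1 : (Oring w).subtype (resultant Ao Bo d d) =
        resultant (C c⁻¹ * A) (C c⁻¹ * B) d d := by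
      rw [← resultant_map_map, hAo, hBo]
    rw [resultant_C_mul_left, resultant_C_mul_right] at h1
    exact h1
  have h1 : (c⁻¹) ^ d ≠ 0 := pow_ne_zero _ (inv_ne_zero hc)
  apply resMap_ne_zero
  · rw [e1]; exact mul_ne_zero h1 (mul_ne_zero h1 hR0)
  · rw [e1, w.mul _ _ h1 (mul_ne_zero h1 hR0), w.mul _ _ h1 hR0,
      w.o_pow _ (inv_ne_zero hc), w.o_inv c hc, hR]
    ring

end Good

/-- two rational functions of the same degree which agree at many points -/
lemma proportional {k : Type*} [Field k] {A B A' B' : k[X]} {d : ℕ} (hd : 1 ≤ d)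
    (h : Rat A B d) (h' : Rat A' B' d) (heq : A * B' = A' * B) :
    ∃ u : k, u ≠ 0 ∧ A' = C u * A ∧ B' = C u * B := by
  have hB0 := h.B0 hd
  have h1 : B ∣ B' := h.cop.symm.dvd_of_dvd_mul_left ⟨A', by rw [heq]; ring⟩
  have h2 : B' ∣ B := h'.cop.symm.dvd_of_dvd_mul_left ⟨A, by rw [← heq]; ring⟩
  obtain ⟨s, hs⟩ := h1
  obtain ⟨t, ht⟩ := h2
  have hst : s * t = 1 := by
    apply mul_left_cancel₀ hB0
    rw [← mul_assoc, ← hs, ← ht, mul_one]
  have hsu : IsUnit s := IsUnit.of_mul_eq_one _ hst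
  obtain ⟨u, hu, hus⟩ := Polynomial.isUnit_iff.mp hsu
  refine ⟨u, hu.ne_zero, ?_, ?_⟩
  · apply mul_right_cancel₀ hB0
    rw [← heq, hs, hus]; ring
  · rw [hs, hus]; ring

/-- M6c RIGIDITY -/
theorem rigidity (d m : ℕ) (hd : 2 ≤ d) : ∃ l₀ n₀ : ℕ,
    ∀ {k E : Type} [Field k] [IsAlgClosed k] [CharZero k] [Field E] [Algebra k E] (w : DV E),
    ResK k w → ∀ A B A' B' : E[X], IsRat A B d → IsRat A' B' d → IsGood w d A B → IsGood w d A' B' →
    ∀ n n₁ : ℕ, n₀ ≤ n₁ → n₁ ≤ n → ∀ x y : ℕ → E, Orb A B x n → Orb A' B' y n →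
    (∀ j ≤ n, w.ge 0 (x j) ∧ w.ge 0 (y j) ∧ w.ge 1 (y j - x j)) →
    (∀ i ≤ n, ∀ j ≤ n, i ≠ j → x i ≠ x j ∧ w.o (x i - x j) = 0) →
    ∀ p : Polynomial (Polynomial E), p ≠ 0 → p.natDegree < m → (∀ i, (p.coeff i).natDegree < m) →
      (∀ j ≤ n₁, (p.eval (C (y j))).eval (x j) = 0) →
    ∀ a b c : ℕ, a ≠ b → a ≠ c → b ≠ c → l₀ ≤ a → l₀ ≤ b → l₀ ≤ c → a ≤ n → b ≤ n → c ≤ n →
      x a = y a → x b = y b → x c = y c →
    ∀ j, l₀ ≤ j → j ≤ n → x j = y j := by
  classical
  refine ⟨CC d m m + TT d m (m + m), CC d m m + TT d m (m + m) + 2 * d + 1, ?_⟩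
  intro k E _ _ _ _ _ w hw A B A' B' hAB hAB' hg hg' n n₁ hn₀ hn₁ x y hx hy hint hdist p hp0
    hpm hpX hpv a b c hab hac hbc ha hb hc han hbn hcn ea eb ec
  by_cases hnt : ∃ x : E, x ≠ 0 ∧ w.o x ≠ 0
  swap
  · -- trivial valuation
    push Not at hnt
    intro j _ hj
    rcases (hint j hj).2.2 with h | h
    · exact (sub_eq_zero.mp h).symm
    · by_cases h0 : y j - x j = 0
      · exact (sub_eq_zero.mp h0).symm
      · rw [hnt _ h0] at h
        norm_num at h
  obtain ⟨τ, hτ, L⟩ := exists_loc hw hnt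
  set π := resMap hw with hπ
  have hinj : Function.Injective (Oring w).subtype := Subtype.val_injective
  obtain ⟨e, Ao, Bo, he, hAo, hBo, hAd, hBd, hrat⟩ := exists_model hw (by omega) hAB hg
  obtain ⟨e', Ao', Bo', he', hAo', hBo', hAd', hBd', hrat'⟩ := exists_model hw (by omega) hAB' hg'
  -- the orbits in the valuation ring
  have hlift : ∀ z : ℕ → E, (∀ j ≤ n, w.ge 0 (z j)) → ∃ Z : ℕ → Oring w, ∀ j ≤ n, (Z j).1 = z j := by
    intro z hz
    have : ∀ j, ∃ Z : Oring w, j ≤ n → Z.1 = z j := by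
      intro j
      by_cases hj : j ≤ n
      · exact ⟨⟨z j, hz j hj⟩, fun _ => rfl⟩
      · exact ⟨0, fun h => absurd h hj⟩
    choose Z hZ using this
    exact ⟨Z, hZ⟩
  obtain ⟨X₀, hX₀⟩ := hlift x fun j hj => (hint j hj).1
  obtain ⟨Y₀, hY₀⟩ := hlift y fun j hj => (hint j hj).2.1
  have hev1 : ∀ (P : (Oring w)[X]) (z : Oring w), (P.eval z).1 =
      (P.map (Oring w).subtype).eval z.1 := by
    intro P z
    have := Polynomial.eval_map_apply (f := (Oring w).subtype) (p := P) z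
    exact this.symm
  have hsX : ∀ j, j < n → X₀ (j + 1) * Bo.eval (X₀ j) = Ao.eval (X₀ j) := by
    intro j hj
    apply Subtype.ext
    rw [Subring.coe_mul, hev1, hev1, hAo, hBo, hX₀ j hj.le, hX₀ (j + 1) hj, eval_mul, eval_mul,
      eval_C, hx.step j hj]
    have := hx.ne j hj
    field_simp
  have hsY' : ∀ j, j < n → Y₀ (j + 1) * Bo'.eval (Y₀ j) = Ao'.eval (Y₀ j) := by
    intro j hj
    apply Subtype.ext
    rw [Subring.coe_mul, hev1, hev1, hAo', hBo', hY₀ j hj.le, hY₀ (j + 1) hj, eval_mul,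
      eval_mul, eval_C, hy.step j hj]
    have := hy.ne j hj
    field_simp
  have hred : ∀ j, j ≤ n → π (Y₀ j) = π (X₀ j) := by
    intro j hj
    rw [hπ, resMap_eq, hX₀ j hj, hY₀ j hj]
    exact (hint j hj).2.2
  have hXinj : ∀ i j, i ≤ n → j ≤ n → π (X₀ i) = π (X₀ j) → i = j := by
    intro i j hi hj hij
    by_contra hne
    rw [hπ, resMap_eq, hX₀ i hi, hX₀ j hj] at hij
    obtain ⟨h1, h2⟩ := hdist i hi j hj hne
    have h3 := DV.ge_le hij (sub_ne_zero.mpr h1)
    rw [h2] at h3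
    norm_num at h3
  -- the reductions are proportional
  have hcross : (Ao.map π) * (Bo'.map π) = (Ao'.map π) * (Bo.map π) := by
    rw [← sub_eq_zero]
    apply Polynomial.eq_zero_of_natDegree_lt_card_of_eval_eq_zero' _
      ((range (2 * d + 1)).image fun j => π (X₀ j))
    · intro z hz
      obtain ⟨j, hj, rfl⟩ := mem_image.mp hz
      rw [mem_range] at hj
      have hjn : j < n := by omega
      have h1 := congrArg π (hsX j hjn)
      have h2 := congrArg π (hsY' j hjn)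
      rw [map_mul, ← eval_map_apply, ← eval_map_apply] at h1 h2
      rw [hred j hjn.le, hred (j + 1) hjn] at h2
      rw [eval_sub, eval_mul, eval_mul, ← h1, ← h2]
      ring
    · rw [card_image_of_injOn, card_range]
      · refine lt_of_le_of_lt ((natDegree_sub_le _ _).trans (max_le
          (natDegree_mul_le_of_le hrat.dA hrat'.dB) (natDegree_mul_le_of_le hrat'.dA hrat.dB))) ?_
        omega
      · intro i hi j hj hij
        rw [Finset.mem_coe, mem_range] at hi hj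
        exact hXinj i j (by omega) (by omega) hij
  obtain ⟨u, hu, hAu, hBu⟩ := proportional (by omega) hrat hrat' hcross
  have hcO : algebraMap k E u⁻¹ ∈ Oring w := ge_const hw u⁻¹
  set cu : Oring w := ⟨algebraMap k E u⁻¹, hcO⟩ with hcu
  have hπcu : π cu = u⁻¹ := resMap_const hw u⁻¹ hcO
  have hP : Pair π d Ao Bo (C cu * Ao') (C cu * Bo') X₀ Y₀ n := by
    refine ⟨hAd, hBd, (natDegree_C_mul_le _ _).trans hAd', (natDegree_C_mul_le _ _).trans hBd',
      ?_, ?_, hsX, ?_, hXinj, hred⟩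
    · rw [Polynomial.map_mul, map_C, hπcu, hAu, ← mul_assoc, ← C_mul, inv_mul_cancel₀ hu, C_1,
        one_mul]
    · rw [Polynomial.map_mul, map_C, hπcu, hBu, ← mul_assoc, ← C_mul, inv_mul_cancel₀ hu, C_1,
        one_mul]
    · intro j hj
      rw [eval_mul, eval_mul, eval_C, ← hsY' j hj]
      ring
  -- the algebraic relation
  have hτ0 : τ.1 ≠ 0 := fun h => L.ne (Subtype.ext h)
  obtain ⟨N, hN⟩ := exists_clear hτ0 hτ p
  have hN' : ∀ i j, w.ge 0 (((C (C (τ.1 ^ N)) * p).coeff i).coeff j) := by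
    intro i j
    rw [coeff_C_mul, coeff_C_mul]
    exact hN i j
  obtain ⟨Q, hQ⟩ := exists_lift₂ (C (C (τ.1 ^ N)) * p) hN'
  have hτN : τ.1 ^ N ≠ 0 := pow_ne_zero _ hτ0
  have hCτN : (C (τ.1 ^ N) : E[X]) ≠ 0 := C_ne_zero.mpr hτN
  have hinj2 : Function.Injective (mapRingHom (Oring w).subtype) := by
    rw [coe_mapRingHom]; exact Polynomial.map_injective _ hinj
  have hQ0 : Q ≠ 0 := by
    rintro rfl
    rw [Polynomial.map_zero] at hQ
    exact mul_ne_zero (C_ne_zero.mpr hCτN) hp0 hQ.symm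
  have hQm : Q.natDegree ≤ m := by
    rw [← natDegree_map_eq_of_injective hinj2, hQ, natDegree_C_mul hCτN]
    exact hpm.le
  have hQD : XDeg Q m := by
    intro i
    have h1 := congrArg (fun P => P.coeff i) hQ
    rw [coeff_map, coe_mapRingHom, coeff_C_mul] at h1
    rw [← natDegree_map_eq_of_injective hinj, h1, natDegree_C_mul hτN]
    exact (hpX i).le
  have hQv : ∀ j, j ≤ n₁ → evalEval (X₀ j) (Y₀ j) Q = 0 := by
    intro j hj
    apply Subtype.ext
    have h1 := map_mapRingHom_evalEval (Oring w).subtype Q (X₀ j) (Y₀ j)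
    have h2 : (Oring w).subtype (evalEval (X₀ j) (Y₀ j) Q) = 0 := by
      rw [← h1, hQ]
      have e1 : (Oring w).subtype (X₀ j) = x j := hX₀ j (by omega)
      have e2 : (Oring w).subtype (Y₀ j) = y j := hY₀ j (by omega)
      rw [e1, e2, evalEval_mul]
      have h3 : evalEval (x j) (y j) p = 0 := hpv j hj
      rw [h3, mul_zero]
    exact h2
  have hXY : ∀ j, j ≤ n → x j = y j → Y₀ j = X₀ j := by
    intro j hj h
    apply Subtype.ext
    rw [hX₀ j hj, hY₀ j hj, h]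
  have hfin := core hP L hrat hd m m n₁ (by omega) hn₁ Q hQ0 hQm hQD hQv a b c ha hb hc han hbn
    hcn hab hac hbc (hXY a han ea) (hXY b hbn eb) (hXY c hcn ec)
  intro j hj hjn
  have h1 := hfin j (by omega) hjn
  rw [← hX₀ j hjn, ← hY₀ j hjn, h1]

end Pool.Agent.Helper36.PS
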