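import Pool.Agent.Helper33.PS.Defs
import Pool.Agent.Helper36.S5.Nu

/-!
# Plan S: the valuation ring of a place, its residue map and a uniformiser
-/

set_option autoImplicit false

open Finset Polynomial

namespace Pool.Agent.Helper36.PS

open Pool.Agent.Helper33 Pool.Agent.Helper33.PS Pool.Agent.Helper36.S5

variable {k E : Type*} [Field k] [Field E] [Algebra k E]

/-- the valuation ring -/
def Oring (w : DV E) : Subring E where
  carrier := {x | w.ge 0 x}
  mul_mem' {a b} ha hb := by
    have := DV.ge_mul (v := w) ha hb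
    rwa [add_zero] at this
  one_mem' := DV.ge_one
  add_mem' {a b} ha hb := DV.ge_add (v := w) ha hb
  zero_mem' := DV.ge_zero _
  neg_mem' {a} ha := DV.ge_neg (v := w) ha

lemma mem_Oring {w : DV E} {x : E} : x ∈ Oring w ↔ w.ge 0 x := Iff.rfl

lemma res_unique {w : DV E} (hw : ResK k w) {x : E} {c c' : k}
    (h : w.ge 1 (x - algebraMap k E c)) (h' : w.ge 1 (x - algebraMap k E c')) : c = c' := by
  by_contra hne
  have h1 : w.ge 1 (algebraMap k E (c' - c)) := by
    have h2 := DV.ge_sub h h'
    have e : x - algebraMap k E c - (x - algebraMap k E c') = algebraMap k E (c' - c) := by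
      rw [map_sub]; ring
    rwa [e] at h2
  have h2 : c' - c ≠ 0 := sub_ne_zero.mpr (Ne.symm hne)
  have h3 : algebraMap k E (c' - c) ≠ 0 := by
    rw [Ne, map_eq_zero]; exact h2
  have h4 := DV.ge_le h1 h3
  rw [hw.const _ h2] at h4
  norm_num at h4

/-- the residue -/
noncomputable def resFun {w : DV E} (hw : ResK k w) (x : Oring w) : k := (hw.res x.1 x.2).choose

lemma resFun_spec {w : DV E} (hw : ResK k w) (x : Oring w) :
    w.ge 1 (x.1 - algebraMap k E (resFun hw x)) := (hw.res x.1 x.2).choose_spec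

lemma resFun_eq {w : DV E} (hw : ResK k w) (x : Oring w) (c : k)
    (h : w.ge 1 (x.1 - algebraMap k E c)) : resFun hw x = c :=
  res_unique hw (resFun_spec hw x) h

lemma ge_const {w : DV E} (hw : ResK k w) (c : k) : w.ge 0 (algebraMap k E c) := by
  by_cases hc : c = 0
  · rw [hc, map_zero]; exact DV.ge_zero _
  · right; rw [hw.const c hc]; simp

/-- the residue map -/
noncomputable def resMap {w : DV E} (hw : ResK k w) : Oring w →+* k where
  toFun := resFun hw
  map_one' := resFun_eq hw 1 1 (by simp [DV.ge_zero])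
  map_zero' := resFun_eq hw 0 0 (by simp [DV.ge_zero])
  map_add' x y := by
    apply resFun_eq
    have h := DV.ge_add (resFun_spec hw x) (resFun_spec hw y)
    have e : x.1 - algebraMap k E (resFun hw x) + (y.1 - algebraMap k E (resFun hw y)) =
        (x + y : Oring w).1 - algebraMap k E (resFun hw x + resFun hw y) := by
      rw [map_add]; push_cast; ring
    rwa [e] at h
  map_mul' x y := by
    apply resFun_eq
    have h1 := DV.ge_mul (resFun_spec hw x) y.2
    have h2 := DV.ge_mul (ge_const hw (resFun hw x)) (resFun_spec hw y)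
    rw [add_zero] at h1
    rw [zero_add] at h2
    have h := DV.ge_add h1 h2
    have e : (x.1 - algebraMap k E (resFun hw x)) * y.1 +
        algebraMap k E (resFun hw x) * (y.1 - algebraMap k E (resFun hw y)) =
        (x * y : Oring w).1 - algebraMap k E (resFun hw x * resFun hw y) := by
      rw [map_mul]; push_cast; ring
    rwa [e] at h

lemma resMap_const {w : DV E} (hw : ResK k w) (c : k) (h : algebraMap k E c ∈ Oring w) :
    resMap hw ⟨algebraMap k E c, h⟩ = c :=
  resFun_eq hw _ c (by simp [DV.ge_zero])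

lemma resMap_eq_zero {w : DV E} (hw : ResK k w) (x : Oring w) :
    resMap hw x = 0 ↔ w.ge 1 x.1 := by
  constructor
  · intro h
    have h1 := resFun_spec hw x
    have h2 : resFun hw x = 0 := h
    rwa [h2, map_zero, sub_zero] at h1
  · intro h
    exact resFun_eq hw x 0 (by rwa [map_zero, sub_zero])

lemma resMap_eq {w : DV E} (hw : ResK k w) (x y : Oring w) :
    resMap hw x = resMap hw y ↔ w.ge 1 (x.1 - y.1) := by
  rw [← sub_eq_zero, ← map_sub, resMap_eq_zero]
  rfl

lemma resMap_ne_zero {w : DV E} (hw : ResK k w) (x : Oring w) (hx : x.1 ≠ 0) (h : w.o x.1 = 0) :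
    resMap hw x ≠ 0 := by
  intro h0
  have h1 := DV.ge_le ((resMap_eq_zero hw x).mp h0) hx
  rw [h] at h1
  norm_num at h1

/-- a uniformiser -/
lemma exists_uniformiser (w : DV E) (hw : ∃ x : E, x ≠ 0 ∧ w.o x ≠ 0) :
    ∃ t : E, t ≠ 0 ∧ 0 < w.o t ∧ ∀ x : E, x ≠ 0 → 0 < w.o x → w.o t ≤ w.o x := by
  classical
  obtain ⟨x, hx, hox⟩ := hw
  have hex : ∃ n : ℕ, 0 < n ∧ ∃ y : E, y ≠ 0 ∧ w.o y = n := by
    rcases lt_or_gt_of_ne hox with h | h
    · refine ⟨(-(w.o x)).toNat, by omega, x⁻¹, inv_ne_zero hx, ?_⟩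
      rw [w.o_inv x hx]; omega
    · exact ⟨(w.o x).toNat, by omega, x, hx, by omega⟩
  obtain ⟨h1, t, ht, hot⟩ := Nat.find_spec hex
  refine ⟨t, ht, by omega, fun y hy hoy => ?_⟩
  rw [hot]
  have h2 := Nat.find_min' hex (m := (w.o y).toNat) ⟨by omega, y, hy, by omega⟩
  omega

theorem exists_loc {w : DV E} (hw : ResK k w) (hnt : ∃ x : E, x ≠ 0 ∧ w.o x ≠ 0) :
    ∃ τ : Oring w, 0 < w.o τ.1 ∧ Loc (resMap hw) τ := by
  obtain ⟨t, ht, hot, hmin⟩ := exists_uniformiser w hnt
  have htO : t ∈ Oring w := Or.inr (by exact_mod_cast hot.le)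
  refine ⟨⟨t, htO⟩, hot, ?_, ?_, ?_⟩
  · intro h; exact ht (congrArg Subtype.val h)
  · intro x
    rw [resMap_eq_zero]
    constructor
    · intro h
      by_cases hx : x.1 = 0
      · have : x = 0 := Subtype.ext hx
        rw [this]; exact dvd_zero _
      · have h1 : 1 ≤ w.o x.1 := by
          have := DV.ge_le h hx
          exact_mod_cast this
        have h2 := hmin x.1 hx (by omega)
        have h3 : x.1 / t ∈ Oring w := by
          right
          rw [w.o_div _ _ hx ht]
          push_cast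
          have : (w.o t : ℝ) ≤ w.o x.1 := by exact_mod_cast h2
          linarith
        refine ⟨⟨x.1 / t, h3⟩, ?_⟩
        apply Subtype.ext
        push_cast
        field_simp
    · rintro ⟨y, rfl⟩
      have h1 : w.ge 1 t := Or.inr (by
        have : (1 : ℤ) ≤ w.o t := by omega
        exact_mod_cast this)
      have h2 := DV.ge_mul h1 y.2
      rw [add_zero] at h2
      exact h2
  · intro x hx
    by_contra hne
    have hx0 : x.1 ≠ 0 := fun h => hne (Subtype.ext h)
    obtain ⟨y, hy⟩ := hx ((w.o x.1).toNat + 1)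
    have hy0 : y.1 ≠ 0 := by
      intro h
      apply hx0
      rw [hy]; push_cast; rw [h, mul_zero]
    have h1 : 0 ≤ w.o y.1 := by
      have := DV.ge_le y.2 hy0
      exact_mod_cast this
    have h2 : w.o x.1 = ((w.o x.1).toNat + 1 : ℕ) * w.o t + w.o y.1 := by
      have h3 : x.1 = t ^ ((w.o x.1).toNat + 1) * y.1 := by
        conv_lhs => rw [hy]
        push_cast
        rfl
      conv_lhs => rw [h3]
      rw [w.mul _ _ (pow_ne_zero _ ht) hy0, w.o_pow t ht]
    have h3 : 0 ≤ w.o x.1 := by
      have := DV.ge_le x.2 hx0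
      exact_mod_cast this
    have h4 : (((w.o x.1).toNat + 1 : ℕ) : ℤ) * 1 ≤ (((w.o x.1).toNat + 1 : ℕ) : ℤ) * w.o t :=
      mul_le_mul_of_nonneg_left (by omega) (by positivity)
    push_cast at h2 h4
    rw [Int.toNat_of_nonneg h3] at h2 h4
    linarith

/-- lifting polynomials -/
lemma exists_lift {w : DV E} (P : E[X]) (hP : ∀ i, w.ge 0 (P.coeff i)) :
    ∃ Po : (Oring w)[X], Po.map (Oring w).subtype = P := by
  have h : P ∈ Polynomial.lifts (Oring w).subtype := by
    rw [lifts_iff_coeff_lifts]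
    intro n
    exact ⟨⟨P.coeff n, hP n⟩, rfl⟩
  exact (mem_lifts P).mp h

lemma exists_lift₂ {w : DV E} (P : E[X][X]) (hP : ∀ i j, w.ge 0 ((P.coeff i).coeff j)) :
    ∃ Po : (Oring w)[X][X], Po.map (mapRingHom (Oring w).subtype) = P := by
  have h : P ∈ Polynomial.lifts (mapRingHom (Oring w).subtype) := by
    rw [lifts_iff_coeff_lifts]
    intro n
    obtain ⟨q, hq⟩ := exists_lift (P.coeff n) (hP n)
    exact ⟨q, hq⟩
  exact (mem_lifts P).mp h

/-- clearing denominators -/
lemma exists_clear {w : DV E} {t : E} (ht : t ≠ 0) (hot : 0 < w.o t) (P : E[X][X]) :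
    ∃ N : ℕ, ∀ i j, w.ge 0 (t ^ N * (P.coeff i).coeff j) := by
  classical
  refine ⟨∑ i ∈ P.support, ∑ j ∈ (P.coeff i).support, (-(w.o ((P.coeff i).coeff j))).toNat,
    fun i j => ?_⟩
  by_cases h0 : (P.coeff i).coeff j = 0
  · rw [h0, mul_zero]; exact DV.ge_zero _
  · right
    rw [w.mul _ _ (pow_ne_zero _ ht) h0, w.o_pow t ht]
    have hi : i ∈ P.support := by
      rw [mem_support_iff]; intro h; rw [h] at h0; exact h0 (by simp)
    have hj : j ∈ (P.coeff i).support := by rw [mem_support_iff]; exact h0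
    set N := ∑ i ∈ P.support, ∑ j ∈ (P.coeff i).support, (-(w.o ((P.coeff i).coeff j))).toNat
      with hN
    have h1 : (-(w.o ((P.coeff i).coeff j))).toNat ≤ N := by
      calc (-(w.o ((P.coeff i).coeff j))).toNat
          ≤ ∑ j ∈ (P.coeff i).support, (-(w.o ((P.coeff i).coeff j))).toNat :=
            Finset.single_le_sum (f := fun j => (-(w.o ((P.coeff i).coeff j))).toNat)
              (fun _ _ => Nat.zero_le _) hj
        _ ≤ N := Finset.single_le_sum
            (f := fun i => ∑ j ∈ (P.coeff i).support, (-(w.o ((P.coeff i).coeff j))).toNat)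
              (fun _ _ => Nat.zero_le _) hi
    have h2 : -(w.o ((P.coeff i).coeff j)) ≤ (N : ℤ) := by
      have h3 := Int.self_le_toNat (-(w.o ((P.coeff i).coeff j)))
      have h4 : (((-(w.o ((P.coeff i).coeff j))).toNat : ℕ) : ℤ) ≤ (N : ℤ) := by
        exact_mod_cast h1
      linarith
    have h3 : (N : ℤ) * 1 ≤ N * w.o t := mul_le_mul_of_nonneg_left (by omega) (by positivity)
    have h4 : (0 : ℤ) ≤ N * w.o t + w.o ((P.coeff i).coeff j) := by linarith
    exact_mod_cast h4

end Pool.Agent.Helper36.PS
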